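import Pool.Agent.W559.Et.Stm

/-!
# ET-CB: etale inclusions and common bases
-/

set_option autoImplicit false

open TensorProduct

universe u

namespace Pool.Agent.W366.ET

open Pool.Agent.W559.Et

/-! ### Abstract version -/

section abs

variable {R S R' S' : Type u} [CommRing R] [CommRing S] [CommRing R'] [CommRing S']
  [Algebra R S] [Algebra R R'] [Algebra R' S'] [Algebra S S'] [Algebra R S']
  [IsScalarTower R S S'] [IsScalarTower R R' S'] {ι : Type}

lemma pushout_of_basis (B : Module.Basis ι R R') (B' : Module.Basis ι S S')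
    (h : ∀ i, algebraMap R' S' (B i) = B' i) : Algebra.IsPushout R S R' S' := by
  refine ⟨?_⟩
  refine IsBaseChange.of_equiv ((Algebra.TensorProduct.basis S B).equiv B' (Equiv.refl ι)) ?_
  have h1 : ((((Algebra.TensorProduct.basis S B).equiv B' (Equiv.refl ι)).toLinearMap.restrictScalars R)
      ∘ₗ (TensorProduct.mk R S R' 1)) = (IsScalarTower.toAlgHom R R' S').toLinearMap := by
    refine B.ext fun i => ?_
    have e1 : (1 : S) ⊗ₜ[R] B i = Algebra.TensorProduct.basis S B i := by
      rw [Algebra.TensorProduct.basis_apply]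
    simp only [LinearMap.coe_comp, Function.comp_apply, TensorProduct.mk_apply,
      LinearMap.coe_restrictScalars, LinearEquiv.coe_coe, AlgHom.toLinearMap_apply,
      IsScalarTower.coe_toAlgHom']
    rw [e1, Module.Basis.equiv_apply, h]
    rfl
  intro x
  exact LinearMap.congr_fun h1 x

lemma etale_iff (B : Module.Basis ι R R') (B' : Module.Basis ι S S') [Nonempty ι] [Nontrivial R']
    (h : ∀ i, algebraMap R' S' (B i) = B' i) : Algebra.Etale R S ↔ Algebra.Etale R' S' := by
  have hp : Algebra.IsPushout R R' S S' := (pushout_of_basis B B' h).symm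
  constructor
  · intro _
    exact Algebra.Etale.of_equiv (Algebra.IsPushout.equiv R R' S S')
  · intro _
    have : Algebra.Etale R' (R' ⊗[R] S) :=
      Algebra.Etale.of_equiv (Algebra.IsPushout.equiv R R' S S').symm
    have : Module.Free R R' := Module.Free.of_basis B
    have : Module.FaithfullyFlat R R' := inferInstance
    exact Algebra.Etale.of_etale_tensorProduct_of_faithfullyFlat R'

end abs

/-! ### Subalgebras -/

section sub

variable {k D : Type u} [Field k] [CommRing D] [Algebra k D]

/-- the algebra structure of an inclusion -/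
abbrev ia {P Q : Subalgebra k D} (h : P ≤ Q) : Algebra P Q :=
  (Subalgebra.inclusion h).toRingHom.toAlgebra

lemma basis_of {P Q F : Subalgebra k D} (h : P ≤ Q) (hPF : P ≤ F) {ι : Type} (b : ι → D)
    (hb : ∀ i, b i ∈ Q)
    (hspan : ∀ x ∈ Q, ∃ c : ι →₀ D, (∀ i, c i ∈ P) ∧ x = c.sum fun i a => a * b i)
    (hind : ∀ c : ι →₀ D, (∀ i, c i ∈ F) → (c.sum fun i a => a * b i) = 0 → c = 0) :
    letI := ia h
    ∃ B : Module.Basis ι P Q, ∀ i, (B i : D) = b i := by
  letI := ia h
  let v : ι → Q := fun i => ⟨b i, hb i⟩
  have key : ∀ l : ι →₀ P, ((Finsupp.linearCombination P v l : Q) : D) =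
      (l.mapRange (fun p : P => (p : D)) rfl).sum fun i a => a * b i := by
    intro l
    rw [Finsupp.linearCombination_apply, Finsupp.sum_mapRange_index (by simp)]
    have e : ((l.sum fun i a => a • v i : Q) : D) = Q.val (l.sum fun i a => a • v i) := rfl
    rw [e, map_finsuppSum]
    rfl
  have hli : LinearIndependent P v := by
    rw [linearIndependent_iff]
    intro l hl
    have h1 := key l
    rw [hl] at h1
    have h2 := hind (l.mapRange (fun p : P => (p : D)) rfl) (fun i => hPF (l i).2) h1.symm
    ext i
    have h3 := DFunLike.congr_fun h2 i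
    exact h3
  have hsp : ⊤ ≤ Submodule.span P (Set.range v) := by
    intro x _
    obtain ⟨c, hc, hx⟩ := hspan x.1 x.2
    rw [Finsupp.mem_span_range_iff_exists_finsupp]
    refine ⟨Finsupp.onFinset c.support (fun i => ⟨c i, hc i⟩) (fun i hi => ?_), ?_⟩
    · rw [Finsupp.mem_support_iff]
      intro h0
      exact hi (Subtype.ext h0)
    · apply Subtype.ext
      have h1 := key (Finsupp.onFinset c.support (fun i => ⟨c i, hc i⟩) (fun i hi => by
        rw [Finsupp.mem_support_iff]
        intro h0
        exact hi (Subtype.ext h0)))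
      rw [Finsupp.linearCombination_apply] at h1
      rw [h1, hx]
      congr 1
      ext i
      rfl
  exact ⟨Module.Basis.mk hli hsp, fun i => by rw [Module.Basis.mk_apply]⟩

end sub

theorem cb : CbStm.{u} := by
  intro k D _ _ _ F0 F E0 E hF hE hFE0 hFE ι _ b hb hs0 hs hind
  rcases subsingleton_or_nontrivial D with hD | hD
  · constructor
    · intro _
      refine ⟨hE, RingHom.Etale.of_bijective ⟨fun x y _ => Subtype.ext (Subsingleton.elim _ _),
        fun y => ⟨0, Subtype.ext (Subsingleton.elim _ _)⟩⟩⟩
    · intro _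
      refine ⟨hF, RingHom.Etale.of_bijective ⟨fun x y _ => Subtype.ext (Subsingleton.elim _ _),
        fun y => ⟨0, Subtype.ext (Subsingleton.elim _ _)⟩⟩⟩
  · letI a1 : Algebra F0 F := ia hF
    let a2 : Algebra F0 E0 := ia hFE0
    let a3 : Algebra F E := ia hFE
    let a4 : Algebra E0 E := ia hE
    let a5 : Algebra F0 E := ia (hF.trans hFE)
    have t1 : IsScalarTower F0 F E := IsScalarTower.of_algebraMap_eq fun x => rfl
    have t2 : IsScalarTower F0 E0 E := IsScalarTower.of_algebraMap_eq fun x => rfl
    obtain ⟨B, hB⟩ := basis_of hFE0 hF b hb hs0 hind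
    obtain ⟨B', hB'⟩ := basis_of hFE le_rfl b (fun i => hE (hb i)) hs hind
    have h := etale_iff (S := F) (S' := E) B B' (fun i => by
      apply Subtype.ext
      rw [hB' i, ← hB i]
      rfl)
    constructor
    · rintro ⟨_, he⟩
      exact ⟨hE, h.1 he⟩
    · rintro ⟨_, he⟩
      exact ⟨hF, h.2 he⟩

end Pool.Agent.W366.ET
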