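import Pool.Agent.W559.Et.Stm3

/-!
# The properties of the algebras of the first level
-/

set_option autoImplicit false
set_option linter.unusedSectionVars false

universe u v w

namespace Pool.Agent.W366.ETRW

open Pool.Agent.W559.Mg Pool.Agent.W559.Et

section

variable {k K : Type u} [Field k] [Field K] [Algebra k K]

/-- The elements with coefficients of the right weight. -/
def wtA (h : K →ₐ[k] K) (ω : k) (hω : ω ≠ 0) (B : Subalgebra k K) : Subalgebra k (ML K G3) where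
  carrier := {f | ∀ d, f.coeff d ∈ B ∧ h (f.coeff d) = algebraMap k K (ω ^ (co3 d)) * f.coeff d}
  mul_mem' := by
    intro f g hf hg d
    rw [coeff_mul_sum]
    refine ⟨Subalgebra.sum_mem _ fun a _ => Subalgebra.mul_mem _ (hf a).1 (hg _).1, ?_⟩
    rw [map_sum, Finset.mul_sum]
    refine Finset.sum_congr rfl fun a _ => ?_
    rw [map_mul, (hf a).2, (hg (d - a)).2]
    have h1 : ω ^ (co3 d) = ω ^ (co3 a) * ω ^ (co3 (d - a)) := by
      rw [← zpow_add₀ hω, ← map_add, add_sub_cancel]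
    rw [h1, map_mul]
    ring
  add_mem' := by
    intro f g hf hg d
    rw [coeff_add']
    refine ⟨Subalgebra.add_mem _ (hf d).1 (hg d).1, ?_⟩
    rw [map_add, (hf d).2, (hg d).2]
    ring
  algebraMap_mem' := by
    classical
    intro r d
    rw [algebraMap_ML, coeff_mo]
    split_ifs with hd
    · rw [← hd]
      refine ⟨Subalgebra.algebraMap_mem _ _, ?_⟩
      rw [AlgHom.commutes, map_zero, zpow_zero, map_one, one_mul]
    · refine ⟨Subalgebra.zero_mem _, ?_⟩
      rw [map_zero, mul_zero]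

theorem CB_le (h : K →ₐ[k] K) (ω : k) (hω : ω ≠ 0) (B : Subalgebra k K) :
    CB h ω B ≤ wtA h ω hω B := by
  classical
  unfold CB
  rw [Algebra.adjoin_le_iff]
  rintro f ⟨d, a, ha, hc, rfl⟩ d'
  rw [coeff_mo]
  split_ifs with hd
  · rw [← hd]; exact ⟨ha, hc⟩
  · refine ⟨Subalgebra.zero_mem _, ?_⟩
    rw [map_zero, mul_zero]

theorem CB_mem {h : K →ₐ[k] K} {ω : k} {B : Subalgebra k K} (d : G3) {a : K} (ha : a ∈ B)
    (hc : h a = algebraMap k K (ω ^ (co3 d)) * a) : mo d a ∈ CB h ω B :=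
  Algebra.subset_adjoin ⟨d, a, ha, hc, rfl⟩

/-- The elements of second degree zero. -/
def supA (k K : Type u) [Field k] [Field K] [Algebra k K] : Subalgebra k (ML K G3) where
  carrier := {f | ∀ d, f.coeff d ≠ 0 → co2 d = 0}
  mul_mem' := by
    intro f g hf hg d hd
    rw [coeff_mul_sum] at hd
    obtain ⟨a, -, ha⟩ := Finset.exists_ne_zero_of_sum_ne_zero hd
    have h1 := hf a (left_ne_zero_of_mul ha)
    have h2 := hg (d - a) (right_ne_zero_of_mul ha)
    have h3 : d = a + (d - a) := by abel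
    rw [h3, map_add, h1, h2, add_zero]
  add_mem' := by
    intro f g hf hg d hd
    rw [coeff_add'] at hd
    by_contra h0
    have h1 : f.coeff d = 0 := by
      by_contra h2
      exact h0 (hf d h2)
    have h2 : g.coeff d = 0 := by
      by_contra h2
      exact h0 (hg d h2)
    rw [h1, h2, add_zero] at hd
    exact hd rfl
  algebraMap_mem' := by
    classical
    intro r d hd
    rw [algebraMap_ML, coeff_mo] at hd
    split_ifs at hd with h1
    · rw [← h1, map_zero]
    · exact absurd rfl hd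

theorem supA_mo {d : G3} (hd : co2 d = 0) (a : K) : mo d a ∈ supA k K := by
  classical
  intro d' h
  rw [coeff_mo] at h
  split_ifs at h with h1
  · rw [← h1]; exact hd
  · exact absurd rfl h

variable {γ h : K →ₐ[k] K} {r : ℕ} {ω : k} {B : Subalgebra k K}

theorem RW_s : sS K ∈ RW γ h r ω B := Algebra.subset_adjoin (Or.inl rfl)

theorem RW_mem {a : K} (ha : a ∈ B) {c : ℤ} (hc : h a = algebraMap k K (ω ^ c) * a) (j : ℕ) :
    mo (dg j 0 c) ((dl (γ ^ r))^[j] a) ∈ RW γ h r ω B :=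
  Algebra.subset_adjoin (Or.inr ⟨a, ha, c, hc, j, rfl⟩)

theorem RW_mem0 {a : K} (ha : a ∈ B) {c : ℤ} (hc : h a = algebraMap k K (ω ^ c) * a) :
    mo (dg 0 0 c) a ∈ RW γ h r ω B := RW_mem ha hc 0

theorem RW_pow_s (n : ℕ) : mo (dg (-n) 0 0) 1 ∈ RW γ h r ω B := by
  have h1 := (RW γ h r ω B).pow_mem RW_s n
  unfold sS at h1
  rw [mo_pow, one_pow, dg_nsmul, mul_neg, mul_one, mul_zero] at h1
  exact h1

theorem dl_it_mem (σ : K →ₐ[k] K) (hB : ∀ x ∈ B, σ x ∈ B) {a : K} (ha : a ∈ B) (j : ℕ) :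
    (dl σ)^[j] a ∈ B := by
  induction j with
  | zero => exact ha
  | succ j ih =>
    rw [Function.iterate_succ_apply']
    exact B.sub_mem (hB _ ih) ih

theorem dl_it_comm (σ τ : K →ₐ[k] K) (hc : ∀ x, τ (σ x) = σ (τ x)) (a : K) (j : ℕ) :
    (dl σ)^[j] (τ a) = τ ((dl σ)^[j] a) := by
  induction j with
  | zero => rfl
  | succ j ih =>
    rw [Function.iterate_succ_apply', ih, Function.iterate_succ_apply']
    unfold dl
    rw [map_sub, hc]

theorem dl_it_mul (σ : K →ₐ[k] K) {x : K} (hx : σ x = x) (a : K) (j : ℕ) :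
    (dl σ)^[j] (x * a) = x * (dl σ)^[j] a := by
  induction j with
  | zero => rfl
  | succ j ih =>
    rw [Function.iterate_succ_apply', ih, Function.iterate_succ_apply']
    unfold dl
    rw [map_mul, hx, mul_sub]

theorem dl_it_wt (σ h : K →ₐ[k] K) (hc : ∀ x, h (σ x) = σ (h x)) {a : K} {c : k}
    (ha : h a = algebraMap k K c * a) (j : ℕ) :
    h ((dl σ)^[j] a) = algebraMap k K c * (dl σ)^[j] a := by
  rw [← dl_it_comm σ h hc, ha, dl_it_mul σ (AlgHom.commutes σ c)]

theorem pow_comm (γ τ : K →ₐ[k] K) (hc : ∀ x, γ (τ x) = τ (γ x)) (r : ℕ) (x : K) :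
    (γ ^ r) (τ x) = τ ((γ ^ r) x) := by
  rw [pow_app, pow_app]
  induction r with
  | zero => rfl
  | succ r ih => rw [Function.iterate_succ_apply', ih, hc, Function.iterate_succ_apply']

theorem pow_mem (γ : K →ₐ[k] K) (hB : ∀ x ∈ B, γ x ∈ B) (r : ℕ) (x : K) (hx : x ∈ B) :
    (γ ^ r) x ∈ B := by
  rw [pow_app]
  induction r with
  | zero => exact hx
  | succ r ih => rw [Function.iterate_succ_apply']; exact hB _ ih

theorem pow_fix' (γ : K →ₐ[k] K) {x : K} (hx : γ x = x) (r : ℕ) : (γ ^ r) x = x := by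
  rw [pow_app]
  exact Function.iterate_fixed hx r

theorem sum_om {M : ℕ} (om : IsPrimitiveRoot ω M) (c : ℤ) :
    ∑ j ∈ Finset.range M, ω ^ ((j : ℤ) * c) = if (M : ℤ) ∣ c then (M : k) else 0 := by
  split_ifs with hc
  · obtain ⟨e, rfl⟩ := hc
    rw [Finset.sum_congr rfl (g := fun _ => (1 : k))]
    · simp
    · intro j _
      have : (j : ℤ) * (M * e) = M * (j * e) := by ring
      rw [this, zpow_mul, zpow_natCast, om.pow_eq_one, one_zpow]
  · have h1 : ω ^ c ≠ 1 := by
      intro h1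
      exact hc ((om.zpow_eq_one_iff_dvd c).1 h1)
    have h2 : ∑ j ∈ Finset.range M, ω ^ ((j : ℤ) * c) = ∑ j ∈ Finset.range M, (ω ^ c) ^ j := by
      refine Finset.sum_congr rfl fun j _ => ?_
      rw [mul_comm, zpow_mul, zpow_natCast]
    rw [h2]
    have h3 := mul_neg_geom_sum (ω ^ c) M
    have h4 : (ω ^ c) ^ M = 1 := by
      rw [← zpow_natCast, ← zpow_mul, mul_comm, zpow_mul, zpow_natCast, om.pow_eq_one, one_zpow]
    rw [h4, sub_self] at h3
    exact (mul_eq_zero.1 h3).resolve_left (sub_ne_zero.2 (Ne.symm h1))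

/-- An endomorphism fixing all eigenvectors in `B` fixes `B`. -/
theorem fix_of_eig {M : ℕ} (hM0 : 0 < M) (Mk : (M : k) ≠ 0) (om : IsPrimitiveRoot ω M)
    (hM : ∀ x, h^[M] x = x) (hB : ∀ x ∈ B, h x ∈ B) (σ : K →ₐ[k] K)
    (hσ : ∀ a ∈ B, ∀ c : ℤ, h a = algebraMap k K (ω ^ c) * a → σ a = a) :
    ∀ b ∈ B, σ b = b := by
  intro b hb
  have hω : ω ≠ 0 := om.ne_zero (by omega)
  have hbj : ∀ j : ℕ, h^[j] b ∈ B := by
    intro j
    induction j with
    | zero => exact hb
    | succ j ih => rw [Function.iterate_succ_apply']; exact hB _ ih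
  let F : ℕ → ℕ → K := fun c j => algebraMap k K (ω ^ ((c : ℤ) * (-(j : ℤ)))) * h^[j] b
  have hF : ∀ c j, h (F c j) = algebraMap k K (ω ^ (c : ℤ)) * F c (j + 1) := by
    intro c j
    change h (algebraMap k K (ω ^ ((c : ℤ) * (-(j : ℤ)))) * h^[j] b) = algebraMap k K (ω ^ (c : ℤ)) *
      (algebraMap k K (ω ^ ((c : ℤ) * (-((j + 1 : ℕ) : ℤ)))) * h^[j + 1] b)
    rw [map_mul, AlgHom.commutes, Function.iterate_succ_apply', ← mul_assoc, ← map_mul,
      ← zpow_add₀ hω]
    congr 3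
    push_cast
    ring
  have hFM : ∀ c, F c M = F c 0 := by
    intro c
    change algebraMap k K (ω ^ ((c : ℤ) * (-(M : ℤ)))) * h^[M] b =
      algebraMap k K (ω ^ ((c : ℤ) * (-((0 : ℕ) : ℤ)))) * h^[0] b
    have h1 : (c : ℤ) * (-(M : ℤ)) = (M : ℤ) * (-(c : ℤ)) := by ring
    rw [hM, h1, zpow_mul ω (M : ℤ), zpow_natCast, om.pow_eq_one]
    simp
  have hsum : ∀ c, h (∑ j ∈ Finset.range M, F c j) =
      algebraMap k K (ω ^ (c : ℤ)) * ∑ j ∈ Finset.range M, F c j := by
    intro c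
    rw [map_sum, Finset.sum_congr rfl fun j _ => hF c j, ← Finset.mul_sum]
    congr 1
    have h1 := Finset.sum_range_succ (fun j => F c j) M
    have h2 := Finset.sum_range_succ' (fun j => F c j) M
    rw [h1, hFM] at h2
    exact (add_right_cancel h2).symm
  have hfix : ∀ c, σ (∑ j ∈ Finset.range M, F c j) = ∑ j ∈ Finset.range M, F c j := by
    intro c
    refine hσ _ (B.sum_mem fun j _ => B.mul_mem (B.algebraMap_mem _) (hbj j)) (c : ℤ) (hsum c)
  have htot : ∑ c ∈ Finset.range M, ∑ j ∈ Finset.range M, F c j = algebraMap k K (M : k) * b := by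
    rw [Finset.sum_comm]
    have h1 : ∀ j ∈ Finset.range M, ∑ c ∈ Finset.range M, F c j =
        if j = 0 then algebraMap k K (M : k) * b else 0 := by
      intro j hj
      change ∑ c ∈ Finset.range M, algebraMap k K (ω ^ ((c : ℤ) * (-(j : ℤ)))) * h^[j] b = _
      rw [← Finset.sum_mul, ← map_sum, sum_om om]
      by_cases hj0 : j = 0
      · subst hj0
        simp
      · rw [if_neg, if_neg hj0, map_zero, zero_mul]
        intro hd
        rw [dvd_neg, Int.natCast_dvd_natCast] at hd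
        have := Nat.le_of_dvd (by omega) hd
        rw [Finset.mem_range] at hj
        omega
    rw [Finset.sum_congr rfl h1, Finset.sum_ite_eq' (Finset.range M) 0]
    rw [if_pos (Finset.mem_range.2 hM0)]
  have h1 : σ (algebraMap k K (M : k) * b) = algebraMap k K (M : k) * b := by
    rw [← htot, map_sum]
    exact Finset.sum_congr rfl fun c _ => hfix c
  rw [map_mul, AlgHom.commutes] at h1
  refine mul_left_cancel₀ ?_ h1
  intro h0
  apply Mk
  apply (algebraMap k K).injective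
  rw [h0, map_zero]

end

theorem rw_holds : RwStm.{u} := by
  intro k K _ _ _ γ h p M ω G 𝒱 Kf 𝒜 W T _ B H A r hr hfg
  have hω : ω ≠ 0 := G.om.ne_zero (by have := G.M0; omega)
  have hσγ : ∀ x, (γ ^ r) (γ x) = γ ((γ ^ r) x) := pow_comm γ γ (fun x => rfl) r
  have hσh : ∀ x, (γ ^ r) (h x) = h ((γ ^ r) x) := pow_comm γ h G.c r
  have hσB : ∀ t, ∀ x ∈ B t, (γ ^ r) x ∈ B t := fun t => pow_mem γ (A.g t) r
  have hxH : ∀ t t', γ (H t' / H t) = H t' / H t := fun t t' => by
    rw [map_div₀, A.Hg, A.Hg]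
  have hhH : ∀ t t', h (H t' / H t) = H t' / H t := fun t t' => by
    rw [map_div₀, A.Hh, A.Hh]
  have hone : h (1 : K) = algebraMap k K (ω ^ (0 : ℤ)) * 1 := by
    rw [map_one, zpow_zero, map_one, one_mul]
  have hDgen : ∀ (a : K) (c : ℤ) (j : ℕ), Dn (dg 1 0 0) (γ ^ r)
      (mo (dg j 0 c) ((dl (γ ^ r))^[j] a)) =
      mo (dg (j + 1 : ℕ) 0 c) ((dl (γ ^ r))^[j + 1] a) := by
    intro a c j
    rw [Dn_mo, dg_add, zero_add, zero_add, Function.iterate_succ_apply']
    congr 2
    push_cast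
    ring
  have hD : ∀ t, ∀ f ∈ RW γ h r ω (B t), Dn (dg 1 0 0) (γ ^ r) f ∈ RW γ h r ω (B t) := by
    intro t
    refine Dn_stable _ rfl _ _ (by rw [dg_neg, neg_zero]; exact RW_s) ?_
    rintro f (hf | ⟨a, ha, c, hc, j, rfl⟩)
    · rw [Set.mem_singleton_iff.1 hf]
      have h1 : dl (γ ^ r) (1 : K) = 0 := by unfold dl; rw [map_one, sub_self]
      unfold sS
      rw [Dn_mo, h1, mo_zero]
      exact Subalgebra.zero_mem _
    · rw [hDgen]
      exact RW_mem ha hc (j + 1)
  refine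
    { gr := ?_
      s := fun t => RW_s
      g := ?_
      D := hD
      c := ?_
      le := ?_
      T := ?_
      neg := ?_
      gl := ?_
      fg := hfg
      X := ?_
      pos := ?_ }
  · intro t
    refine gr_adjoin _ ?_
    rintro f (hf | ⟨a, ha, c, hc, j, rfl⟩)
    · exact ⟨_, _, Set.mem_singleton_iff.1 hf⟩
    · exact ⟨_, _, rfl⟩
  · intro t
    have h1 : RW γ h r ω (B t) ≤ (RW γ h r ω (B t)).comap (gm G3 γ) := by
      conv_lhs => unfold RW
      rw [Algebra.adjoin_le_iff]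
      rintro f (hf | ⟨a, ha, c, hc, j, rfl⟩)
      · rw [Set.mem_singleton_iff.1 hf]
        change gm G3 γ (sS K) ∈ RW γ h r ω (B t)
        have h2 : gm G3 γ (sS K) = sS K := by unfold sS; rw [gm_mo, map_one]
        rw [h2]
        exact RW_s
      · change gm G3 γ _ ∈ RW γ h r ω (B t)
        rw [gm_mo, ← dl_it_comm (γ ^ r) γ (fun x => (hσγ x).symm)]
        refine RW_mem (A.g t a ha) ?_ j
        rw [← G.c, hc, map_mul, AlgHom.commutes]
    exact fun f hf => h1 hf
  · intro t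
    have h1 : RW γ h r ω (B t) ≤ supA k K := by
      unfold RW
      rw [Algebra.adjoin_le_iff]
      rintro f (hf | ⟨a, ha, c, hc, j, rfl⟩)
      · rw [Set.mem_singleton_iff.1 hf]
        exact supA_mo (by rw [co2_dg]) _
      · exact supA_mo (by rw [co2_dg]) _
    exact fun f hf => h1 hf
  · intro t
    conv_lhs => unfold RW
    rw [Algebra.adjoin_le_iff]
    rintro f (hf | ⟨a, ha, c, hc, j, rfl⟩)
    · rw [Set.mem_singleton_iff.1 hf]
      exact CB_mem _ (B t).one_mem (by rw [co3_dg]; exact hone)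
    · refine CB_mem _ (dl_it_mem _ (hσB t) ha j) ?_
      rw [co3_dg]
      exact dl_it_wt _ _ (fun x => (hσh x).symm) hc j
  · intro t
    exact ⟨CB_mem _ (B t).one_mem (by rw [co3_dg]; exact hone),
      CB_mem _ (B t).one_mem (by rw [co3_dg]; exact hone)⟩
  · intro t m a h1 h2 ha
    have h3 := CB_le h ω hω (B t) ha.1 m
    rw [coeff_mo_same] at h3
    obtain ⟨n, hn⟩ := Int.eq_ofNat_of_zero_le (a := -co1 m) (by omega)
    have h4 := (RW γ h r ω (B t)).mul_mem (RW_pow_s n) (RW_mem0 (γ := γ) (r := r) h3.1 h3.2)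
    rw [mo_mul, one_mul] at h4
    have h5 : dg (-n) 0 0 + dg 0 0 (co3 m) = m := by
      have h6 : co1 m = m.1 := rfl
      have h7 : co2 m = m.2.1 := rfl
      have h8 : co3 m = m.2.2.1 := rfl
      rw [dg_add, add_zero, add_zero, zero_add]
      have h9 : -(n : ℤ) = m.1 := by omega
      rw [h9, h8, ← h2, h7]
      rfl
    rwa [h5] at h4
  · intro t t' f hf
    have hx : mo 0 (H t' / H t) ∈ RW γ h r ω (B t) := by
      rw [← dg_zero]
      refine RW_mem0 (A.rt t t') ?_
      rw [hhH, zpow_zero, map_one, one_mul]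
    have h1 : RW γ h r ω (B t') ≤ lc (RW γ h r ω (B t)) (mo 0 (H t' / H t)) hx := by
      conv_lhs => unfold RW
      rw [Algebra.adjoin_le_iff]
      rintro f (hf | ⟨a, ha, c, hc, j, rfl⟩)
      · rw [Set.mem_singleton_iff.1 hf]
        exact le_lc _ _ hx RW_s
      · obtain ⟨n, hn⟩ := A.gl t t' a ha
        refine mem_lc.2 ⟨n, ?_⟩
        have hxn : (γ ^ r) ((H t' / H t) ^ n) = (H t' / H t) ^ n := by
          rw [map_pow, pow_fix' γ (hxH t t')]
        rw [mo_pow, smul_zero, mo_mul, zero_add, ← dl_it_mul _ hxn]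
        refine RW_mem hn ?_ j
        rw [map_mul, map_pow, hhH, hc]
        ring
    exact mem_lc.1 (h1 hf)
  · intro t
    refine ⟨{sS K} ∪ {f | ∃ a ∈ B t, ∃ c : ℤ, h a = algebraMap k K (ω ^ c) * a ∧
      ∃ j : ℕ, f = mo (dg j 0 c) ((dl (γ ^ r))^[j] a)}, ?_, rfl, ?_⟩
    · rintro f (hf | ⟨a, ha, c, hc, j, rfl⟩)
      · exact ⟨_, _, Set.mem_singleton_iff.1 hf⟩
      · exact ⟨_, _, rfl⟩
    · intro Q hQ hQD d a hda hdX hd
      by_cases ha0 : a = 0
      · subst ha0
        have h1 : (⟨mo d 0, hda⟩ : RW γ h r ω (B t)) = 0 := Subtype.ext (mo_zero d)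
        rw [h1]
        exact Q.zero_mem
      · rcases hdX with hf | ⟨b, hb, c, hc, j, hf⟩
        · exfalso
          have h1 := (mo_dg_inj (Set.mem_singleton_iff.1 hf) ha0).1
          rw [h1, co1_dg] at hd
          omega
        · have h1 := (mo_dg_inj hf ha0).1
          rw [h1, co1_dg] at hd
          obtain ⟨i, rfl⟩ : ∃ i, j = i + 1 := ⟨j - 1, by omega⟩
          have h2 := hQD (mo (dg i 0 c) ((dl (γ ^ r))^[i] b)) (hD t _ (RW_mem hb hc i))
            (RW_mem hb hc i)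
          have h3 : (⟨mo d a, hda⟩ : RW γ h r ω (B t)) =
              ⟨Dn (dg 1 0 0) (γ ^ r) (mo (dg i 0 c) ((dl (γ ^ r))^[i] b)),
                hD t _ (RW_mem hb hc i)⟩ := by
            apply Subtype.ext
            exact hf.trans (hDgen b c i).symm
          rw [h3]
          exact h2
  · intro t
    by_contra hcon
    obtain ⟨x, hx⟩ := hr
    apply hx
    have h1 : ∀ b ∈ B t, (γ ^ r) b = b := by
      refine fix_of_eig G.M0 G.Mk G.om G.hM (A.st t) (γ ^ r) ?_
      intro a ha c hc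
      by_contra h2
      refine hcon ⟨dg (1 : ℕ) 0 c, (dl (γ ^ r))^[1] a, sub_ne_zero.2 h2, ?_, RW_mem ha hc 1⟩
      rw [co1_dg]
      norm_num
    obtain ⟨a, ha, b, hb, hb0, rfl⟩ := A.fr t x
    rw [map_div₀, h1 a ha, h1 b hb]

end Pool.Agent.W366.ETRW
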